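import Mathlib

/-! Directed paths as duplicate-free lists, their lengths, and basic surgery. -/

namespace Pool.Agent.Helper187_BSP

open Relation

universe u

variable {V : Type u}

/-- The length of a vertex sequence: the sum of `c` over consecutive pairs. -/
def len (c : V → V → ℝ) : List V → ℝ
  | [] => 0
  | [_] => 0
  | a :: b :: l => c a b + len c (b :: l)

/-- `l` is a directed (simple) path from `a` to `b` in the digraph with edge relation `E`. -/
structure IsPath (E : V → V → Prop) (a b : V) (l : List V) : Prop where
  chain : l.IsChain E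
  nodup : l.Nodup
  head : l.head? = some a
  last : l.getLast? = some b

@[simp] theorem len_nil (c : V → V → ℝ) : len c [] = 0 := rfl
@[simp] theorem len_single (c : V → V → ℝ) (a : V) : len c [a] = 0 := rfl
@[simp] theorem len_cons_cons (c : V → V → ℝ) (a b : V) (l : List V) :
    len c (a :: b :: l) = c a b + len c (b :: l) := rfl

theorem len_append (c : V → V → ℝ) (Q : List V) (x y : V) (R : List V) :
    len c (Q ++ x :: y :: R) = len c (Q ++ [x]) + c x y + len c (y :: R) := by
  induction Q with
  | nil => simp
  | cons a Q ih =>
    cases Q with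
    | nil => simp; ring
    | cons b Q =>
      simp only [List.cons_append, len_cons_cons] at ih ⊢
      rw [ih]; ring

theorem len_nonneg {c : V → V → ℝ} {E : V → V → Prop} (hc : ∀ u w, E u w → 0 < c u w)
    {l : List V} (h : l.IsChain E) : 0 ≤ len c l := by
  induction l with
  | nil => simp
  | cons a l ih =>
    cases l with
    | nil => simp
    | cons b l =>
      rw [List.isChain_cons_cons] at h
      have := hc _ _ h.1
      have := ih h.2
      simp only [len_cons_cons]; linarith

theorem IsPath.exists_cons {E : V → V → Prop} {a b : V} {l : List V} (h : IsPath E a b l) :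
    ∃ l', l = a :: l' := by
  cases l with
  | nil => simpa using h.head
  | cons x l =>
    have := h.head
    simp at this
    exact ⟨l, by rw [this]⟩

theorem IsPath.exists_concat {E : V → V → Prop} {a b : V} {l : List V} (h : IsPath E a b l) :
    ∃ l', l = l' ++ [b] := by
  have := h.last
  rw [List.getLast?_eq_some_iff] at this
  exact this

/-- every walk contains a simple path -/
theorem exists_path_of_rtg {E : V → V → Prop} {a b : V} (h : ReflTransGen E a b) :
    ∃ l, IsPath E a b l := by
  classical
  induction h using ReflTransGen.head_induction_on with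
  | refl => exact ⟨[b], by simp, by simp, by simp, by simp⟩
  | @head a c hac _ ih =>
    obtain ⟨l, hl⟩ := ih
    obtain ⟨l', rfl⟩ := hl.exists_cons
    by_cases ha : a ∈ c :: l'
    · obtain ⟨s, t, hst⟩ := List.append_of_mem ha
      rw [hst] at hl
      refine ⟨a :: t, ?_, ?_, by simp, ?_⟩
      · exact hl.chain.right_of_append
      · exact (List.nodup_append.1 hl.nodup).2.1
      · have := hl.last
        rw [List.getLast?_append] at this
        simpa using this
    · refine ⟨a :: c :: l', ?_, ?_, by simp, ?_⟩
      · rw [List.isChain_cons_cons]; exact ⟨hac, hl.chain⟩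
      · rw [List.nodup_cons]; exact ⟨ha, hl.nodup⟩
      · have := hl.last
        rw [List.getLast?_cons_cons]; exact this

theorem rtg_of_path {E : V → V → Prop} {a b : V} {l : List V} (h : IsPath E a b l) :
    ReflTransGen E a b := by
  obtain ⟨l', rfl⟩ := h.exists_cons
  have hc := h.chain
  have hl := h.last
  clear h
  induction l' generalizing a with
  | nil => simp at hl; rw [hl]
  | cons x l ih =>
    rw [List.isChain_cons_cons] at hc
    rw [List.getLast?_cons_cons] at hl
    exact ReflTransGen.head hc.1 (ih hc.2 hl)

theorem exists_shortest [Finite V] {E : V → V → Prop} (c : V → V → ℝ) {a b : V}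
    (h : ReflTransGen E a b) :
    ∃ P, IsPath E a b P ∧ ∀ Q, IsPath E a b Q → len c P ≤ len c Q := by
  classical
  have : Fintype V := Fintype.ofFinite V
  have hfin : ({l : List V | IsPath E a b l}).Finite := by
    apply Set.Finite.subset (s := {l : List V | l.Nodup})
    · have hf : Finite { l : List V // l.Nodup } := inferInstance
      exact hf
    · intro l hl; exact hl.nodup
  obtain ⟨l, hl⟩ := exists_path_of_rtg h
  obtain ⟨P, hP, hmin⟩ := Set.exists_min_image _ (len c) hfin ⟨l, hl⟩
  exact ⟨P, hP, fun Q hQ => hmin Q hQ⟩

theorem IsPath.mono {E E' : V → V → Prop} {a b : V} {l : List V} (h : IsPath E a b l)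
    (hE : ∀ u w, E u w → E' u w) : IsPath E' a b l :=
  ⟨h.chain.imp (fun _ _ h => hE _ _ h), h.nodup, h.head, h.last⟩

/-- all vertices of a path starting inside a set closed under the edges stay inside -/
theorem path_stays {E : V → V → Prop} {A : Set V} (hA : ∀ u ∈ A, ∀ w, E u w → w ∈ A)
    {a : V} {l : List V} (h : (a :: l).IsChain E) (ha : a ∈ A) : ∀ v ∈ a :: l, v ∈ A := by
  induction l generalizing a with
  | nil => simpa using ha
  | cons b l ih =>
    rw [List.isChain_cons_cons] at h
    intro v hv
    rcases List.mem_cons.1 hv with rfl | hv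
    · exact ha
    · exact ih h.2 (hA _ ha _ h.1) v hv

/-- first entrance into `A` -/
theorem split_first {A : Set V} {a : V} {l : List V} (ha : a ∉ A)
    (hlast : ∃ t ∈ A, t ∈ a :: l) :
    ∃ (Q : List V) (x y : V) (R : List V), a :: l = Q ++ x :: y :: R ∧
      (∀ v ∈ Q, v ∉ A) ∧ x ∉ A ∧ y ∈ A := by
  induction l generalizing a with
  | nil =>
    obtain ⟨t, htA, ht⟩ := hlast
    simp at ht; subst ht; exact absurd htA ha
  | cons b l ih =>
    by_cases hb : b ∈ A
    · exact ⟨[], a, b, l, rfl, by simp, ha, hb⟩
    · have : ∃ t ∈ A, t ∈ b :: l := by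
        obtain ⟨t, htA, ht⟩ := hlast
        rcases List.mem_cons.1 ht with rfl | ht
        · exact absurd htA ha
        · exact ⟨t, htA, ht⟩
      obtain ⟨Q, x, y, R, h1, h2, h3, h4⟩ := ih hb this
      refine ⟨a :: Q, x, y, R, by rw [h1]; rfl, ?_, h3, h4⟩
      intro v hv
      rcases List.mem_cons.1 hv with rfl | hv
      · exact ha
      · exact h2 v hv

end Pool.Agent.Helper187_BSP
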