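import Pool.Agent.Helper187_BSP.Main

/-! The contraction step. -/

namespace Pool.Agent.Helper187_BSP

open Relation

universe u

variable {V : Type u}

/-- the digraph obtained by contracting `A` to `t` -/
def CE (E : V → V → Prop) (t : V) (A : Finset V) (u w : V) : Prop :=
  u ∉ A ∧ ((w ∉ A ∧ E u w) ∨ (w = t ∧ ∃ y ∈ A, E u y))

open Classical in
/-- the costs on the contracted digraph -/
noncomputable def Cr (r : Bool → V → V → ℝ) (p : Bool) (t : V) (e : V → ℝ) (b : Bool) (u w : V) :
    ℝ :=
  if w = t then (if b = p then 1 else e u) else r b u w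

theorem len_congr {c c' : V → V → ℝ} {l : List V}
    (h : ∀ u ∈ l, ∀ w ∈ l, c u w = c' u w) : len c l = len c' l := by
  induction l with
  | nil => simp
  | cons a l ih =>
    cases l with
    | nil => simp
    | cons b l =>
      simp only [len_cons_cons]
      rw [h a (by simp) b (by simp), ih (fun u hu w hw => h u (by simp [hu]) w (by simp [hw]))]

theorem len_prefix {c : V → V → ℝ} {E : V → V → Prop} (hc : ∀ u w, E u w → 0 < c u w)
    {L M : List V} {u : V} (h : (L ++ u :: M).IsChain E) :
    len c (L ++ [u]) ≤ len c (L ++ u :: M) := by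
  cases M with
  | nil => exact le_refl _
  | cons m M =>
    rw [len_append]
    rw [List.isChain_append_cons_cons] at h
    have := hc _ _ h.2.1
    have := len_nonneg hc h.2.2
    linarith

theorem chain_imp_init {R S : V → V → Prop} {L : List V} {u : V} (h : (L ++ [u]).IsChain R)
    (hRS : ∀ a ∈ L, ∀ b ∈ L ++ [u], R a b → S a b) : (L ++ [u]).IsChain S := by
  induction L with
  | nil => simp
  | cons a L ih =>
    have ih' := ih (by
        have := h.tail
        simpa using this) (fun x hx b hb hab => hRS x (by simp [hx]) b (by simp at hb ⊢; tauto) hab)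
    cases L with
    | nil =>
      simp only [List.nil_append, List.cons_append, List.isChain_cons_cons] at h ⊢
      exact ⟨hRS a (by simp) u (by simp) h.1, by simp⟩
    | cons b L =>
      simp only [List.cons_append, List.isChain_cons_cons] at h ih' ⊢
      exact ⟨hRS a (by simp) b (by simp) h.1, ih'⟩

theorem split_pred (Z : V → Prop) {l : List V} (h : ∃ v ∈ l, Z v) :
    ∃ L u M, l = L ++ u :: M ∧ Z u ∧ ∀ v ∈ L, ¬ Z v := by
  classical
  induction l with
  | nil => simp at h
  | cons a l ih =>
    by_cases ha : Z a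
    · exact ⟨[], a, l, rfl, ha, by simp⟩
    · have : ∃ v ∈ l, Z v := by
        obtain ⟨v, hv, hZ⟩ := h
        rcases List.mem_cons.1 hv with rfl | hv
        · exact absurd hZ ha
        · exact ⟨v, hv, hZ⟩
      obtain ⟨L, u, M, h1, h2, h3⟩ := ih this
      refine ⟨a :: L, u, M, by rw [h1]; rfl, h2, ?_⟩
      intro v hv
      rcases List.mem_cons.1 hv with rfl | hv
      · exact ha
      · exact h3 v hv

theorem glue {H : V → V → Prop} {Q R : List V} {x y s t : V} (hQ : (Q ++ [x]).IsChain H)
    (hxy : H x y) (hR : IsPath H y t (y :: R)) (hn : (Q ++ [x]).Nodup)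
    (hdis : ∀ v ∈ Q ++ [x], v ∉ y :: R) (hh : (Q ++ [x]).head? = some s) :
    IsPath H s t (Q ++ x :: y :: R) := by
  refine ⟨?_, ?_, ?_, ?_⟩
  · rw [List.isChain_append_cons_cons]; exact ⟨hQ, hxy, hR.chain⟩
  · have : Q ++ x :: y :: R = (Q ++ [x]) ++ (y :: R) := by simp
    rw [this, List.nodup_append]
    refine ⟨hn, hR.nodup, ?_⟩
    intro a ha b hb hab
    subst hab
    exact hdis a ha hb
  · cases Q with
    | nil => simpa using hh
    | cons q Q => simpa using hh
  · have : Q ++ x :: y :: R = (Q ++ [x]) ++ (y :: R) := by simp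
    rw [this, List.getLast?_append, hR.last]; rfl

theorem unglue {H : V → V → Prop} {Q R : List V} {x y s t : V}
    (h : IsPath H s t (Q ++ x :: y :: R)) :
    (Q ++ [x]).IsChain H ∧ H x y ∧ IsPath H y t (y :: R) ∧ (Q ++ [x]).Nodup ∧
      (∀ v ∈ Q ++ [x], v ∉ y :: R) ∧ (Q ++ [x]).head? = some s := by
  have hc := h.chain
  rw [List.isChain_append_cons_cons] at hc
  have he : Q ++ x :: y :: R = (Q ++ [x]) ++ (y :: R) := by simp
  have hn := h.nodup
  rw [he, List.nodup_append] at hn
  have hl := h.last
  rw [he, List.getLast?_append] at hl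
  refine ⟨hc.1, hc.2.1, ⟨hc.2.2, hn.2.1, rfl, ?_⟩, hn.1, ?_, ?_⟩
  · cases hh : (y :: R).getLast? with
    | none => simp at hh
    | some z => rw [hh] at hl; simpa using hl
  · intro v hv hv'
    exact hn.2.2 v hv v hv' rfl
  · have := h.head
    cases Q with
    | nil => simpa using this
    | cons q Q => simpa using this

theorem contract [Fintype V] {E : V → V → Prop} {own : V → Bool} {r : Bool → V → V → ℝ}
    {p : Bool} {t s : V} {A : Finset V} {μ : V → ℝ} {σ τ : V → V}
    (hpos : ∀ b u w, E u w → 0 < r b u w) (ht : ∀ w, ¬ E t w)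
    (hpot : Pot E own p t (r p) A μ σ τ) (hs : s ∉ A)
    {S : V → List V}
    (hS : ∀ y ∈ A, IsPath (Res E own p σ) y t (S y) ∧
      ∀ Q, IsPath (Res E own p σ) y t Q → len (r (!p)) (S y) ≤ len (r (!p)) Q)
    {Y : V → V}
    (hY : ∀ u, (∃ y ∈ A, E u y) → Y u ∈ A ∧ E u (Y u) ∧ ∀ y ∈ A, E u y →
      r (!p) u (Y u) + len (r (!p)) (S (Y u)) ≤ r (!p) u y + len (r (!p)) (S y))
    {P' : List V}
    (h1 : Good (CE E t A) own
      (Cr r p t (fun u => r (!p) u (Y u) + len (r (!p)) (S (Y u)))) p s t P')
    (h2 : Good (CE E t A) own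
      (Cr r p t (fun u => r (!p) u (Y u) + len (r (!p)) (S (Y u)))) (!p) s t P') :
    ∃ P, Good E own r p s t P ∧ Good E own r (!p) s t P := by
  classical
  set e : V → ℝ := fun u => r (!p) u (Y u) + len (r (!p)) (S (Y u)) with he
  obtain ⟨f', hf', hPf, hminf⟩ := h1
  obtain ⟨g', hg', hPg, hming⟩ := h2
  rw [Bool.not_not] at hming
  have hownq : ∀ v, own v ≠ p → own v = !p := by
    intro v hv; cases hh : own v <;> cases p <;> simp_all
  have hownq' : ∀ v, own v = !p → own v ≠ p := by
    intro v hv; rw [hv]; cases p <;> simp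
  -- decomposition of P'
  obtain ⟨Q, x, hP'eq⟩ : ∃ Q x, P' = Q ++ [x, t] ∧ (∀ v ∈ Q ++ [x], v ∉ A) ∧
      (∃ y ∈ A, E x y) := by
    obtain ⟨l', rfl⟩ := hPf.exists_cons
    have htmem : t ∈ s :: l' := List.mem_of_getLast? hPf.last
    obtain ⟨Q, x, y, R, h1, h2, h3, h4⟩ := split_first (A := (A : Set V)) hs ⟨t, hpot.tA, htmem⟩
    have hc := hPf.chain
    rw [h1, List.isChain_append_cons_cons] at hc
    have hxy := hc.2.1.1
    have hyt : y = t ∧ ∃ y ∈ A, E x y := by
      rcases hxy.2 with h | h
      · exact absurd h4 h.1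
      · exact h
    obtain ⟨rfl, hex⟩ := hyt
    have hR : R = [] := by
      cases R with
      | nil => rfl
      | cons z R =>
        have := hc.2.2
        rw [List.isChain_cons_cons] at this
        exact absurd hpot.tA this.1.1.1
    subst hR
    refine ⟨Q, x, h1, ?_, hex⟩
    intro v hv
    rcases List.mem_append.1 hv with hv | hv
    · exact h2 v hv
    · simp at hv; subst hv; exact h3
  obtain ⟨rfl, hQA, hxex⟩ := hP'eq
  have hxA : x ∉ A := hQA x (by simp)
  obtain ⟨hy1A, hxy1, hymin⟩ := hY x hxex
  set y₁ := Y x with hy₁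
  obtain ⟨hSp, hSmin⟩ := hS y₁ hy1A
  have hSA := hpot.path_mem ht hy1A hSp
  obtain ⟨S', hS'⟩ := hSp.exists_cons
  have ugf := unglue (Q := Q) (x := x) (y := t) (R := []) hPf
  have ugg := unglue (Q := Q) (x := x) (y := t) (R := []) hPg
  have hxp : own x ≠ p := fun h => hpot.out_p x hxA h y₁ hxy1 hy1A
  have hne_t : ∀ v, v ∉ A → v ≠ t := fun v hv h => hv (h ▸ hpot.tA)
  have hCE : ∀ a b, a ∉ A → b ∉ A → (CE E t A a b ↔ E a b) := by
    intro a b ha hb
    constructor
    · rintro ⟨_, h | h⟩
      · exact h.2
      · exact absurd h.1 (hne_t b hb)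
    · intro h; exact ⟨ha, Or.inl ⟨hb, h⟩⟩
  have hact : ∀ v, v ∉ A → (∃ w, E v w) → ∃ w, CE E t A v w := by
    rintro v hv ⟨w, hw⟩
    by_cases hwA : w ∈ A
    · exact ⟨t, hv, Or.inr ⟨rfl, w, hwA, hw⟩⟩
    · exact ⟨w, hv, Or.inl ⟨hwA, hw⟩⟩
  have hlen : ∀ b (L : List V) (u : V), (∀ v ∈ L ++ [u], v ∉ A) →
      len (Cr r p t e b) (L ++ [u, t]) = len (r b) (L ++ [u]) + (if b = p then 1 else e u) := by
    intro b L u hLA
    have : L ++ [u, t] = L ++ u :: t :: [] := rfl
    rw [this, len_append]
    have h1 : len (Cr r p t e b) (L ++ [u]) = len (r b) (L ++ [u]) := by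
      apply len_congr
      intro a ha w hw
      simp only [Cr, if_neg (hne_t w (hLA w hw))]
    rw [h1]
    simp [Cr]
  have hpp : (!p) ≠ p := by cases p <;> simp
  -- the path P
  have hPE : IsPath E s t (Q ++ x :: S y₁) := by
    rw [hS']
    refine glue ?_ hxy1 ?_ ugf.2.2.2.1 ?_ ugf.2.2.2.2.2
    · exact ugf.1.imp_of_mem_imp (fun a b ha hb hab => (hCE a b (hQA a ha) (hQA b hb)).1 hab.1)
    · rw [← hS']; exact hSp.mono (fun _ _ h => h.1)
    · intro v hv hv'
      rw [← hS'] at hv'
      exact hQA v hv (hSA v hv')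
  refine ⟨Q ++ x :: S y₁, ?_, ?_⟩
  · -- player p
    set f : V → V := fun v => if v ∈ A then σ v else f' v with hfdef
    have hfA : ∀ v ∈ A, f v = σ v := fun v hv => by simp [hfdef, hv]
    have hfN : ∀ v, v ∉ A → f v = f' v := fun v hv => by simp [hfdef, hv]
    refine ⟨f, ?_, ?_, ?_⟩
    · intro v hv hex
      by_cases hvA : v ∈ A
      · rw [hfA v hvA]
        have hvt : v ≠ t := by rintro rfl; obtain ⟨w, hw⟩ := hex; exact ht _ hw
        exact (hpot.σA v hvA hvt hv).1
      · rw [hfN v hvA]
        have := hf' v hv (hact v hvA hex)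
        rcases this.2 with h | h
        · exact h.2
        · obtain ⟨_, y, hyA, hy⟩ := h
          exact absurd hyA (hpot.out_p v hvA hv y hy)
    · rw [hS']
      refine glue ?_ ⟨hxy1, fun h => absurd h hxp⟩ ?_ ugf.2.2.2.1 ?_ ugf.2.2.2.2.2
      · refine ugf.1.imp_of_mem_imp (fun a b ha hb hab => ?_)
        refine ⟨(hCE a b (hQA a ha) (hQA b hb)).1 hab.1, fun h => ?_⟩
        rw [hfN a (hQA a ha)]; exact hab.2 h
      · rw [← hS']; exact (res_congr_path hpot ht hfA hy1A).2 hSp
      · intro v hv hv'
        rw [← hS'] at hv'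
        exact hQA v hv (hSA v hv')
    · intro R hR
      obtain ⟨l', hl'⟩ := hR.exists_cons
      have htmem : t ∈ s :: l' := by
        have := List.mem_of_getLast? hR.last
        rw [hl'] at this; exact this
      obtain ⟨Q₂, x₂, y₂, R₂, k1, k2, k3, k4⟩ :=
        split_first (A := (A : Set V)) hs ⟨t, hpot.tA, htmem⟩
      rw [hl', k1] at hR
      rw [hl', k1]
      have ug := unglue hR
      have hQ₂A : ∀ v ∈ Q₂ ++ [x₂], v ∉ A := by
        intro v hv
        rcases List.mem_append.1 hv with hv | hv
        · exact k2 v hv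
        · simp at hv; subst hv; exact k3
      have hx₂ : ∃ y ∈ A, E x₂ y := ⟨y₂, k4, ug.2.1.1⟩
      have hpath : IsPath (Res (CE E t A) own p f') s t (Q₂ ++ x₂ :: t :: []) := by
        refine glue ?_ ?_ ⟨by simp, by simp, rfl, rfl⟩ ug.2.2.2.1 ?_ ug.2.2.2.2.2
        · refine ug.1.imp_of_mem_imp (fun a b ha hb hab => ?_)
          refine ⟨(hCE a b (hQ₂A a ha) (hQ₂A b hb)).2 hab.1, fun h => ?_⟩
          rw [hab.2 h, hfN a (hQ₂A a ha)]
        · refine ⟨⟨k3, Or.inr ⟨rfl, hx₂⟩⟩, fun h => ?_⟩
          exact absurd k4 (hpot.out_p x₂ k3 h y₂ ug.2.1.1)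
        · intro v hv hv'
          simp at hv'
          exact hne_t v (hQ₂A v hv) hv'
      have hle := hminf _ hpath
      have e1 := hlen (!p) Q x hQA
      have e2 := hlen (!p) Q₂ x₂ hQ₂A
      rw [if_neg hpp] at e1 e2
      have hle' : len (r !p) (Q ++ [x]) + e x ≤ len (r !p) (Q₂ ++ [x₂]) + e x₂ := by
        rw [← e1, ← e2]; exact hle
      have hd := (hS y₂ k4).2 (y₂ :: R₂) ((res_congr_path hpot ht hfA k4).1 ug.2.2.1)
      have hy2 := (hY x₂ hx₂).2.2 y₂ k4 ug.2.1.1
      rw [len_append]
      have hP : len (r !p) (Q ++ x :: S y₁) = len (r !p) (Q ++ [x]) + e x := by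
        rw [hS', len_append, ← hS']
        simp only [he]; ring
      rw [hP]
      have : e x₂ ≤ r (!p) x₂ y₂ + len (r (!p)) (S y₂) := hy2
      linarith
  · -- player !p
    set g₀ : V → V := fun v => if v ∈ A then τ v else if g' v = t then τ v else g' v with hg₀
    have hg₀A : ∀ v ∈ A, g₀ v = τ v := fun v hv => by simp [hg₀, hv]
    have hg₀N : ∀ v, v ∉ A → own v = !p → (∃ w, E v w) → g₀ v ∉ A := by
      intro v hv ho hex
      by_cases hgt : g' v = t
      · simp only [hg₀, if_neg hv, if_pos hgt]
        exact (hpot.out_q v hv (hownq' v ho) hex).2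
      · simp only [hg₀, if_neg hv, if_neg hgt]
        rcases (hg' v ho (hact v hv hex)).2 with h | h
        · exact h.1
        · exact absurd h.1 hgt
    obtain ⟨g, hg1, hg2, hg3⟩ := exists_override g₀ hPE.chain hPE.nodup
    have hg1' : (Q ++ [x]).IsChain (fun a b => g a = b) ∧ g x = y₁ ∧
        (S y₁).IsChain (fun a b => g a = b) := by
      have := hg1
      rw [hS', List.isChain_append_cons_cons] at this
      exact ⟨this.1, this.2.1, by rw [hS']; exact this.2.2⟩
    refine ⟨g, ?_, ?_, ?_⟩
    · intro v hv hex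
      rcases hg2 v with h | h
      · rw [h]
        by_cases hvA : v ∈ A
        · rw [hg₀A v hvA]
          have hvt : v ≠ t := by rintro rfl; obtain ⟨w, hw⟩ := hex; exact ht _ hw
          exact (hpot.τA v hvA hvt (hownq' v hv)).1
        · by_cases hgt : g' v = t
          · simp only [hg₀, if_neg hvA, if_pos hgt]
            exact (hpot.out_q v hvA (hownq' v hv) hex).1
          · simp only [hg₀, if_neg hvA, if_neg hgt]
            rcases (hg' v hv (hact v hvA hex)).2 with h | h
            · exact h.2
            · exact absurd h.1 hgt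
      · exact h
    · refine ⟨(chain_and hPE.chain hg1).imp ?_, hPE.nodup, hPE.head, hPE.last⟩
      intro a b hab
      exact ⟨hab.1, fun _ => hab.2.symm⟩
    · intro R hR
      rw [Bool.not_not]
      -- key claim
      have hkey : ∀ u, u ∉ A → own u = !p → (∃ w, E u w) → g u ∈ A → u = x := by
        intro u hu ho hex hgu
        by_cases huP : u ∈ Q ++ x :: S y₁
        · have huQ : u ∈ Q ++ [x] := by
            rcases List.mem_append.1 huP with h | h
            · exact List.mem_append_left _ h
            · rcases List.mem_cons.1 h with rfl | h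
              · simp
              · exact absurd (hSA u h) hu
          by_contra hux
          obtain ⟨w, hw, hgw⟩ := exists_next (t := x) hg1'.1 (by simp) huQ hux
          rw [hgw] at hgu
          exact hQA w hw hgu
        · rw [hg3 u huP] at hgu
          exact absurd hgu (hg₀N u hu ho hex)
      obtain ⟨l', hl'⟩ := hR.exists_cons
      have htmem : t ∈ s :: l' := by
        have := List.mem_of_getLast? hR.last
        rw [hl'] at this; exact this
      obtain ⟨Q₂, x₂, y₂, R₂, k1, k2, k3, k4⟩ :=
        split_first (A := (A : Set V)) hs ⟨t, hpot.tA, htmem⟩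
      rw [hl', k1] at hR
      rw [hl', k1]
      have ug := unglue hR
      have hQ₂A : ∀ v ∈ Q₂ ++ [x₂], v ∉ A := by
        intro v hv
        rcases List.mem_append.1 hv with hv | hv
        · exact k2 v hv
        · simp at hv; subst hv; exact k3
      have hx₂p : own x₂ ≠ p := fun h => absurd k4 (hpot.out_p x₂ k3 h y₂ ug.2.1.1)
      have hy₂ : y₂ = g x₂ := ug.2.1.2 (hownq _ hx₂p)
      have hx₂x : x₂ = x := hkey x₂ k3 (hownq _ hx₂p) ⟨y₂, ug.2.1.1⟩ (by rw [← hy₂]; exact k4)
      subst hx₂x
      have hy₂' : y₂ = y₁ := by rw [hy₂, hg1'.2.1]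
      subst hy₂'
      -- the tail stays in A
      have htail : ∀ v ∈ y₁ :: R₂, v ∈ A := by
        intro v hv
        by_contra hvA
        have hch : (y₁ :: R₂).IsChain (fun a b => Res E own (!p) g a b ∧ a ≠ x₂) := by
          refine ug.2.2.1.chain.imp_of_mem_imp (fun a b ha _ hab => ⟨hab, ?_⟩)
          rintro rfl
          exact ug.2.2.2.2.1 a (by simp) ha
        have hcl : ∀ u ∈ {v : V | v ∉ A}, ∀ w, (Res E own (!p) g u w ∧ u ≠ x₂) →
            w ∈ {v : V | v ∉ A} := by
          rintro u hu w ⟨hw, hux⟩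
          by_cases hp : own u = p
          · exact hpot.out_p u hu hp w hw.1
          · intro hwA
            apply hux
            refine hkey u hu (hownq u hp) ⟨w, hw.1⟩ ?_
            rw [← hw.2 (hownq u hp)]; exact hwA
        have := closed_last hcl hch ug.2.2.1.last hv hvA
        exact this hpot.tA
      have hineq : len (r p) (S y₁) ≤ len (r p) (y₁ :: R₂) := by
        refine pot_ineq hpot ht hSp hSA hg1'.2.2 ?_ ug.2.2.1 htail
        intro v hvA hvS _
        have hvP : v ∉ Q ++ x₂ :: S y₁ := by
          intro h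
          rcases List.mem_append.1 h with h | h
          · exact hQA v (List.mem_append_left _ h) hvA
          · rcases List.mem_cons.1 h with rfl | h
            · exact hxA hvA
            · exact hvS h
        rw [hg3 v hvP, hg₀A v hvA]
      -- prefix
      have hxg' : g' x₂ = t := (ugg.2.1.2 (hownq _ hxp)).symm
      obtain ⟨L, u, M, m1, m2, m3⟩ := split_pred (fun v => own v = !p ∧ g' v = t)
        (l := Q₂ ++ [x₂]) ⟨x₂, by simp, hownq _ hxp, hxg'⟩
      have hLuA : ∀ v ∈ L ++ [u], v ∉ A := by
        intro v hv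
        apply hQ₂A v
        rw [m1]
        rcases List.mem_append.1 hv with h | h
        · exact List.mem_append_left _ h
        · simp at h; subst h; simp
      have hchR : (L ++ u :: M).IsChain (Res E own (!p) g) := by rw [← m1]; exact ug.1
      have hchLu : (L ++ [u]).IsChain (Res E own (!p) g) := by
        rw [List.isChain_split] at hchR; exact hchR.1
      have hnd : (L ++ [u]).Nodup := by
        have := ug.2.2.2.1
        rw [m1] at this
        refine this.sublist ?_
        exact List.Sublist.append_left (by simp) L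
      have huA : u ∉ A := hLuA u (by simp)
      have huact : ∃ w, E u w := by
        have hu : u ∈ Q₂ ++ x₂ :: y₁ :: R₂ := by
          have : u ∈ Q₂ ++ [x₂] := by rw [m1]; simp
          rcases List.mem_append.1 this with h | h
          · exact List.mem_append_left _ h
          · simp at h; subst h; simp
        obtain ⟨w, _, hw⟩ := exists_next hR.chain hR.last hu (hne_t u huA)
        exact ⟨w, hw.1⟩
      have hpath : IsPath (Res (CE E t A) own (!p) g') s t (L ++ u :: t :: []) := by
        refine glue ?_ ?_ ⟨by simp, by simp, rfl, rfl⟩ hnd ?_ ?_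
        · refine chain_imp_init hchLu ?_
          intro a ha b hb hab
          have haA := hLuA a (List.mem_append_left _ ha)
          have hbA := hLuA b hb
          refine ⟨(hCE a b haA hbA).2 hab.1, fun ho => ?_⟩
          rw [hab.2 ho]
          have hnZ := m3 a ha
          have hgt : g' a ≠ t := fun h => hnZ ⟨ho, h⟩
          by_cases haP : a ∈ Q ++ x₂ :: S y₁
          · have haQ : a ∈ Q ++ [x₂] := by
              rcases List.mem_append.1 haP with h | h
              · exact List.mem_append_left _ h
              · rcases List.mem_cons.1 h with rfl | h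
                · simp
                · exact absurd (hSA a h) haA
            have hax : a ≠ x₂ := by rintro rfl; exact hgt hxg'
            obtain ⟨w, _, hw1, hw2⟩ := exists_next (t := x₂) (chain_and hg1'.1 ugg.1) (by simp) haQ hax
            rw [hw1]; exact hw2.2 ho
          · rw [hg3 a haP]
            simp only [hg₀, if_neg haA, if_neg hgt]
        · refine ⟨?_, fun _ => m2.2.symm⟩
          have := hg' u m2.1 (hact u huA huact)
          rw [m2.2] at this; exact this
        · intro v hv hv'
          simp at hv'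
          exact hne_t v (hLuA v hv) hv'
        · have := ug.2.2.2.2.2
          rw [m1] at this
          cases L with
          | nil => simpa using this
          | cons a L => simpa using this
      have hle := hming _ hpath
      have e1 := hlen p Q x₂ hQA
      have e2 := hlen p L u hLuA
      rw [if_pos rfl] at e1 e2
      have hle' : len (r p) (Q ++ [x₂]) + 1 ≤ len (r p) (L ++ [u]) + 1 := by
        rw [← e1, ← e2]; exact hle
      have hpre : len (r p) (L ++ [u]) ≤ len (r p) (Q₂ ++ [x₂]) := by
        rw [m1]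
        exact len_prefix (E := E) (hpos p) (hchR.imp (fun _ _ h => h.1))
      rw [len_append, hS', len_append, ← hS']
      linarith

end Pool.Agent.Helper187_BSP
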