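import Pool.Agent.Helper187_BSP.Contract

/-! The induction. -/

namespace Pool.Agent.Helper187_BSP

open Relation

universe u

variable {V : Type u}

theorem both_of {E : V → V → Prop} {own : V → Bool} {r : Bool → V → V → ℝ} {p : Bool} {s t : V}
    {P : List V} (h1 : Good E own r p s t P) (h2 : Good E own r (!p) s t P) :
    ∀ b, Good E own r b s t P := by
  intro b
  by_cases h : b = p
  · subst h; exact h1
  · have : b = !p := by cases b <;> cases p <;> simp_all
    rw [this]; exact h2

open Classical in
theorem main [Fintype V] (own : V → Bool) (t : V) : ∀ (n : ℕ) (E : V → V → Prop)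
    (r : Bool → V → V → ℝ) (s : V),
    (Finset.univ.filter (fun v => ∃ w, E v w)).card ≤ n →
    (∀ b u w, E u w → 0 < r b u w) → (∀ w, ¬ E t w) → ReflTransGen E s t →
    ∃ P, ∀ b, Good E own r b s t P := by
  intro n
  induction n with
  | zero =>
    intro E r s hn hpos ht hst
    -- no edges at all
    have hno : ∀ u w, ¬ E u w := by
      intro u w h
      have : u ∈ Finset.univ.filter (fun v => ∃ w, E v w) := by simp; exact ⟨w, h⟩
      have := Finset.card_pos.2 ⟨u, this⟩
      omega
    obtain ⟨A, μ, σ, τ, hpot⟩ := exists_pot E own true t (r true) (hpos true) ht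
    have hs : s ∈ A := by
      rcases ReflTransGen.cases_head hst with h | ⟨c, h, _⟩
      · rw [h]; exact hpot.tA
      · exact absurd h (hno _ _)
    obtain ⟨P, h1, h2⟩ := base_case hpos ht hpot hs
    exact ⟨P, both_of h1 h2⟩
  | succ n ih =>
    intro E r s hn hpos ht hst
    by_cases hbase : ∃ p A μ σ τ, Pot E own p t (r p) A μ σ τ ∧ s ∈ A
    · obtain ⟨p, A, μ, σ, τ, hpot, hs⟩ := hbase
      obtain ⟨P, h1, h2⟩ := base_case hpos ht hpot hs
      exact ⟨P, both_of h1 h2⟩
    · push Not at hbase
      -- last edge
      have hst' : ∃ u, E u t := by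
        rcases ReflTransGen.cases_tail hst with h | ⟨c, _, h⟩
        · exfalso
          obtain ⟨A, μ, σ, τ, hpot⟩ := exists_pot E own true t (r true) (hpos true) ht
          exact hbase true A μ σ τ hpot (h ▸ hpot.tA)
        · exact ⟨c, h⟩
      obtain ⟨u, hu⟩ := hst'
      obtain ⟨p, hp⟩ : ∃ p, own u = p := ⟨own u, rfl⟩
      obtain ⟨A, μ, σ, τ, hpot⟩ := exists_pot E own p t (r p) (hpos p) ht
      have hs : s ∉ A := hbase p A μ σ τ hpot
      have huA : u ∈ A := by
        by_contra h
        exact hpot.out_p u h hp t hu hpot.tA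
      -- shortest continuations
      have hS : ∀ y, ∃ l, y ∈ A → (IsPath (Res E own p σ) y t l ∧
          ∀ Q, IsPath (Res E own p σ) y t Q → len (r (!p)) l ≤ len (r (!p)) Q) := by
        intro y
        by_cases hy : y ∈ A
        · obtain ⟨l, hl⟩ := exists_shortest (r (!p)) (hpot.reach (hpos p) hy)
          exact ⟨l, fun _ => hl⟩
        · exact ⟨[], fun h => absurd h hy⟩
      choose S hS using hS
      have hY : ∀ u, ∃ z, (∃ y ∈ A, E u y) → z ∈ A ∧ E u z ∧ ∀ y ∈ A, E u y →
          r (!p) u z + len (r (!p)) (S z) ≤ r (!p) u y + len (r (!p)) (S y) := by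
        intro u
        by_cases hex : ∃ y ∈ A, E u y
        · obtain ⟨y, hyA, hy⟩ := hex
          obtain ⟨z, hz, hmin⟩ := Finset.exists_min_image (A.filter (fun y => E u y))
            (fun y => r (!p) u y + len (r (!p)) (S y)) ⟨y, by simp [hyA, hy]⟩
          rw [Finset.mem_filter] at hz
          exact ⟨z, fun _ => ⟨hz.1, hz.2, fun y hyA hy => hmin y (by simp [hyA, hy])⟩⟩
        · exact ⟨u, fun h => absurd h hex⟩
      choose Y hY using hY
      have hcard : (Finset.univ.filter (fun v => ∃ w, CE E t A v w)).card ≤ n := by
        have hlt : (Finset.univ.filter (fun v => ∃ w, CE E t A v w)).card <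
            (Finset.univ.filter (fun v => ∃ w, E v w)).card := by
          apply Finset.card_lt_card
          rw [Finset.ssubset_iff_of_subset]
          · refine ⟨u, by simp; exact ⟨t, hu⟩, ?_⟩
            simp only [Finset.mem_filter, Finset.mem_univ, true_and, not_exists]
            intro w hw; exact hw.1 huA
          · intro v hv
            simp only [Finset.mem_filter, Finset.mem_univ, true_and] at hv ⊢
            obtain ⟨w, _, hw⟩ := hv
            rcases hw with h | ⟨_, y, _, h⟩
            · exact ⟨w, h.2⟩
            · exact ⟨y, h⟩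
        omega
      have hpos' : ∀ b u w, CE E t A u w → 0 < Cr r p t
          (fun u => r (!p) u (Y u) + len (r (!p)) (S (Y u))) b u w := by
        intro b a w hw
        simp only [Cr]
        by_cases hwt : w = t
        · rw [if_pos hwt]
          by_cases hb : b = p
          · rw [if_pos hb]; norm_num
          · rw [if_neg hb]
            have hex : ∃ y ∈ A, E a y := by
              rcases hw.2 with h | h
              · exact absurd hpot.tA (hwt ▸ h.1)
              · exact h.2
            obtain ⟨h1, h2, _⟩ := hY a hex
            have h3 := hpos (!p) _ _ h2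
            have h4 := len_nonneg (hpos (!p)) ((hS _ h1).1.chain.imp (fun _ _ h => h.1))
            linarith
        · rw [if_neg hwt]
          rcases hw.2 with h | h
          · exact hpos b _ _ h.2
          · exact absurd h.1 hwt
      have ht' : ∀ w, ¬ CE E t A t w := fun w hw => hw.1 hpot.tA
      have hreach : ∀ x, ReflTransGen E x t → x ∉ A → ReflTransGen (CE E t A) x t := by
        intro x hx
        induction hx using ReflTransGen.head_induction_on with
        | refl => intro h; exact absurd hpot.tA h
        | @head a c hac hct ihc =>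
          intro ha
          by_cases hcA : c ∈ A
          · exact ReflTransGen.single ⟨ha, Or.inr ⟨rfl, c, hcA, hac⟩⟩
          · exact ReflTransGen.head ⟨ha, Or.inl ⟨hcA, hac⟩⟩ (ihc hcA)
      obtain ⟨P', hP'⟩ := ih (CE E t A) _ s hcard hpos' ht' (hreach s hst hs)
      obtain ⟨P, h1, h2⟩ := contract hpos ht hpot hs (fun y hy => hS y hy) hY (hP' p) (hP' (!p))
      exact ⟨P, both_of h1 h2⟩

end Pool.Agent.Helper187_BSP
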