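import Pool.Agent.Helper187_BSP.Pot

/-! Strategies, restricted digraphs, the potential inequality. -/

namespace Pool.Agent.Helper187_BSP

open Relation

universe u

variable {V : Type u}

def Strat (E : V → V → Prop) (own : V → Bool) (p : Bool) (f : V → V) : Prop :=
  ∀ v, own v = p → (∃ w, E v w) → E v (f v)

def Res (E : V → V → Prop) (own : V → Bool) (p : Bool) (f : V → V) (u w : V) : Prop :=
  E u w ∧ (own u = p → w = f u)

/-- `P` is a play for which some strategy of player `p` makes it a best reply of player `!p`. -/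
def Good (E : V → V → Prop) (own : V → Bool) (r : Bool → V → V → ℝ) (p : Bool) (s t : V)
    (P : List V) : Prop :=
  ∃ f, Strat E own p f ∧ IsPath (Res E own p f) s t P ∧
    ∀ Q, IsPath (Res E own p f) s t Q → len (r (!p)) P ≤ len (r (!p)) Q

theorem exists_override {E : V → V → Prop} (g : V → V) {l : List V} (hl : l.IsChain E)
    (hn : l.Nodup) :
    ∃ f : V → V, l.IsChain (fun a b => f a = b) ∧ (∀ v, f v = g v ∨ E v (f v)) ∧
      (∀ v, v ∉ l → f v = g v) := by
  classical
  induction l with
  | nil => exact ⟨g, by simp, fun v => Or.inl rfl, fun v _ => rfl⟩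
  | cons a l ih =>
    cases l with
    | nil => exact ⟨g, by simp, fun v => Or.inl rfl, fun v _ => rfl⟩
    | cons b l =>
      rw [List.isChain_cons_cons] at hl
      rw [List.nodup_cons] at hn
      obtain ⟨f, h1, h2, h3⟩ := ih hl.2 hn.2
      refine ⟨Function.update f a b, ?_, ?_, ?_⟩
      · rw [List.isChain_cons_cons]
        refine ⟨by simp, ?_⟩
        refine h1.imp_of_mem_imp ?_
        intro u w hu _ huw
        rw [Function.update_of_ne]
        · exact huw
        · rintro rfl; exact hn.1 hu
      · intro v
        by_cases hv : v = a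
        · subst hv; right; simpa using hl.1
        · rw [Function.update_of_ne hv]; exact h2 v
      · intro v hv
        rw [List.mem_cons, not_or] at hv
        rw [Function.update_of_ne hv.1]
        exact h3 v hv.2

theorem chain_and {R S : V → V → Prop} {l : List V} (h1 : l.IsChain R) (h2 : l.IsChain S) :
    l.IsChain (fun a b => R a b ∧ S a b) := by
  rw [List.isChain_iff_forall_rel_of_append_cons_cons] at h1 h2 ⊢
  intro a b l₁ l₂ h
  exact ⟨h1 h, h2 h⟩

/-- a non-last vertex of a chain has a successor on the chain -/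
theorem exists_next {R : V → V → Prop} {l : List V} {t : V} (h : l.IsChain R)
    (hl : l.getLast? = some t) {v : V} (hv : v ∈ l) (hvt : v ≠ t) : ∃ w ∈ l, R v w := by
  obtain ⟨s, u, rfl⟩ := List.append_of_mem hv
  cases u with
  | nil =>
    rw [List.getLast?_append] at hl
    simp at hl; exact absurd hl hvt
  | cons w u =>
    rw [List.isChain_append_cons_cons] at h
    exact ⟨w, by simp, h.2.1⟩

theorem closed_last {H : V → V → Prop} {B : Set V} (hB : ∀ u ∈ B, ∀ w, H u w → w ∈ B)
    {l : List V} (h : l.IsChain H) {t : V} (hl : l.getLast? = some t) {v : V} (hv : v ∈ l)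
    (hvB : v ∈ B) : t ∈ B := by
  obtain ⟨s, u, rfl⟩ := List.append_of_mem hv
  have h2 := path_stays hB h.right_of_append hvB
  apply h2
  rw [List.getLast?_append] at hl
  have : (v :: u).getLast? = some t := by
    cases hh : (v :: u).getLast? with
    | none => simp at hh
    | some x => rw [hh] at hl; simpa using hl
  exact List.mem_of_getLast? this

theorem le_len_add {c : V → V → ℝ} {μ δ : V → ℝ} {t : V} {l : List V} {a : V}
    (h : (a :: l).IsChain (fun a b => μ a ≤ c a b + μ b + δ a))
    (hl : (a :: l).getLast? = some t) (ht : 0 ≤ δ t) :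
    μ a ≤ len c (a :: l) + ((a :: l).map δ).sum + μ t := by
  induction l generalizing a with
  | nil => simp at hl; subst hl; simp; exact ht
  | cons b l ih =>
    rw [List.isChain_cons_cons] at h
    rw [List.getLast?_cons_cons] at hl
    have := ih h.2 hl
    have := h.1
    simp only [len_cons_cons, List.map_cons, List.sum_cons] at *
    linarith

theorem len_add_le {c : V → V → ℝ} {μ δ : V → ℝ} {t : V} {l : List V} {a : V}
    (h : (a :: l).IsChain (fun a b => c a b + μ b + δ a ≤ μ a))
    (hl : (a :: l).getLast? = some t) (ht : δ t ≤ 0) :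
    len c (a :: l) + ((a :: l).map δ).sum + μ t ≤ μ a := by
  induction l generalizing a with
  | nil => simp at hl; subst hl; simp; exact ht
  | cons b l ih =>
    rw [List.isChain_cons_cons] at h
    rw [List.getLast?_cons_cons] at hl
    have := ih h.2 hl
    have := h.1
    simp only [len_cons_cons, List.map_cons, List.sum_cons] at *
    linarith

theorem sum_map_le [Fintype V] {δ : V → ℝ} (hδ : ∀ v, 0 ≤ δ v) {P R : List V}
    (hR : R.Nodup) (hP : P.Nodup) (h0 : ∀ v, v ∉ P → δ v = 0) :
    (R.map δ).sum ≤ (P.map δ).sum := by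
  classical
  rw [← List.sum_toFinset δ hR, ← List.sum_toFinset δ hP]
  calc ∑ v ∈ R.toFinset, δ v ≤ ∑ v, δ v :=
        Finset.sum_le_sum_of_subset_of_nonneg (Finset.subset_univ _) (fun v _ _ => hδ v)
    _ = ∑ v ∈ P.toFinset, δ v := by
        symm
        apply Finset.sum_subset (Finset.subset_univ _)
        intro v _ hv
        apply h0; simpa using hv

theorem pot_ineq [Fintype V] {E : V → V → Prop} {own : V → Bool} {p : Bool} {t : V}
    {c : V → V → ℝ} {A : Finset V} {μ : V → ℝ} {σ τ : V → V}
    (hpot : Pot E own p t c A μ σ τ) (ht : ∀ w, ¬ E t w)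
    {g : V → V} {y : V} {P : List V} (hP : IsPath (Res E own p σ) y t P)
    (hPA : ∀ v ∈ P, v ∈ A) (hgP : P.IsChain (fun a b => g a = b))
    (hgτ : ∀ v ∈ A, v ∉ P → own v ≠ p → g v = τ v)
    {R : List V} (hR : IsPath (Res E own (!p) g) y t R) (hRA : ∀ v ∈ R, v ∈ A) :
    len c P ≤ len c R := by
  classical
  set δ : V → ℝ := fun v => if v ∈ A ∧ v ≠ t ∧ own v ≠ p then μ v - μ (g v) - c v (g v) else 0
    with hδdef
  have hδt : δ t = 0 := by simp [hδdef]
  -- δ off P is zero
  have h0 : ∀ v, v ∉ P → δ v = 0 := by
    intro v hv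
    by_cases hcond : v ∈ A ∧ v ≠ t ∧ own v ≠ p
    · simp only [hδdef, if_pos hcond]
      rw [hgτ v hcond.1 hv hcond.2.2]
      have := (hpot.τA v hcond.1 hcond.2.1 hcond.2.2).2.2
      linarith
    · simp only [hδdef, if_neg hcond]
  have hboth := chain_and hP.chain hgP
  have hδ : ∀ v, 0 ≤ δ v := by
    intro v
    by_cases hcond : v ∈ A ∧ v ≠ t ∧ own v ≠ p
    · by_cases hv : v ∈ P
      · obtain ⟨w, _, hw⟩ := exists_next hboth hP.last hv hcond.2.1
        simp only [hδdef, if_pos hcond]
        have hmax := (hpot.max_q v hcond.1 hcond.2.2 w hw.1.1).2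
        rw [hw.2]; linarith
      · rw [h0 v hv]
    · simp only [hδdef, if_neg hcond]; exact le_refl _
  -- P side
  have hPs : len c P + (P.map δ).sum ≤ μ y := by
    obtain ⟨l, rfl⟩ := hP.exists_cons
    have hch : (y :: l).IsChain (fun a b => c a b + μ b + δ a ≤ μ a) := by
      refine hboth.imp_of_mem_imp ?_
      intro a b ha hb hab
      have haA := hPA a ha
      have hat : a ≠ t := by rintro rfl; exact ht _ hab.1.1
      by_cases hp : own a = p
      · have hσ := hpot.σA a haA hat hp
        have hb' : b = σ a := hab.1.2 hp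
        have : δ a = 0 := by
          simp only [hδdef]; rw [if_neg]; tauto
        rw [this, hb', ← hσ.2.2]; linarith
      · have : δ a = μ a - μ b - c a b := by
          simp only [hδdef]; rw [if_pos ⟨haA, hat, hp⟩, hab.2]
        rw [this]; linarith
    have := len_add_le hch hP.last hδt.le
    rw [hpot.μt] at this; linarith
  -- R side
  have hRs : μ y ≤ len c R + (R.map δ).sum := by
    obtain ⟨l, rfl⟩ := hR.exists_cons
    have hch : (y :: l).IsChain (fun a b => μ a ≤ c a b + μ b + δ a) := by
      refine hR.chain.imp_of_mem_imp ?_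
      intro a b ha hb hab
      have haA := hRA a ha
      have hbA := hRA b hb
      have hat : a ≠ t := by rintro rfl; exact ht _ hab.1
      by_cases hp : own a = p
      · have := hpot.min_p a haA hp b hbA hab.1
        have := hδ a
        linarith
      · have hb' : b = g a := hab.2 (by cases hh : own a <;> cases p <;> simp_all)
        have : δ a = μ a - μ b - c a b := by
          simp only [hδdef]; rw [if_pos ⟨haA, hat, hp⟩, hb']
        rw [this]; linarith
    have := le_len_add hch hR.last hδt.ge
    rw [hpot.μt] at this; linarith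
  have hsum := sum_map_le hδ hR.nodup hP.nodup h0
  linarith

end Pool.Agent.Helper187_BSP
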