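import Pool.Agent.Helper187_BSP.Ineq

/-! The base case, the contraction step and the induction. -/

namespace Pool.Agent.Helper187_BSP

open Relation

universe u

variable {V : Type u}

theorem exists_strat (E : V → V → Prop) (own : V → Bool) (p : Bool) :
    ∃ f, Strat E own p f := by
  classical
  have : ∀ v, ∃ w, (∃ w, E v w) → E v w := by
    intro v
    by_cases h : ∃ w, E v w
    · obtain ⟨w, hw⟩ := h; exact ⟨w, fun _ => hw⟩
    · exact ⟨v, fun h' => absurd h' h⟩
  choose f hf using this
  exact ⟨f, fun v _ hv => hf v hv⟩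

section pot

variable {E : V → V → Prop} {own : V → Bool} {p : Bool} {t : V}
    {c : V → V → ℝ} {A : Finset V} {μ : V → ℝ} {σ τ : V → V}

theorem Pot.closed (hpot : Pot E own p t c A μ σ τ) (ht : ∀ w, ¬ E t w) :
    ∀ u ∈ (A : Set V), ∀ w, Res E own p σ u w → w ∈ (A : Set V) := by
  intro u hu w hw
  have hut : u ≠ t := by rintro rfl; exact ht _ hw.1
  by_cases hp : own u = p
  · rw [hw.2 hp]; exact (hpot.σA u hu hut hp).2.1
  · exact (hpot.max_q u hu hp w hw.1).1

theorem Pot.reach (hpot : Pot E own p t c A μ σ τ) (hc : ∀ u w, E u w → 0 < c u w)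
    {y : V} (hy : y ∈ A) : ReflTransGen (Res E own p σ) y t := by
  classical
  by_contra hcon
  obtain ⟨z, hz, hmin⟩ := Finset.exists_min_image
    (A.filter (fun z => ¬ ReflTransGen (Res E own p σ) z t)) μ ⟨y, by simp [hy, hcon]⟩
  rw [Finset.mem_filter] at hz
  have hzt : z ≠ t := by rintro rfl; exact hz.2 ReflTransGen.refl
  have key : ∀ w ∈ A, Res E own p σ z w → c z w + μ w = μ z → False := by
    intro w hwA hw heq
    have hpos := hc _ _ hw.1
    by_cases hwr : ReflTransGen (Res E own p σ) w t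
    · exact hz.2 (ReflTransGen.head hw hwr)
    · have := hmin w (by simp [hwA, hwr])
      linarith
  by_cases hp : own z = p
  · have h := hpot.σA z hz.1 hzt hp
    exact key _ h.2.1 ⟨h.1, fun _ => rfl⟩ h.2.2
  · have h := hpot.τA z hz.1 hzt hp
    exact key _ h.2.1 ⟨h.1, fun h' => absurd h' hp⟩ h.2.2

/-- paths starting in `A` do not see the strategy outside `A` -/
theorem res_congr_path (hpot : Pot E own p t c A μ σ τ) (ht : ∀ w, ¬ E t w)
    {f : V → V} (hf : ∀ v ∈ A, f v = σ v) {y : V} (hy : y ∈ A) {l : List V} :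
    IsPath (Res E own p f) y t l ↔ IsPath (Res E own p σ) y t l := by
  have hcl : ∀ u ∈ (A : Set V), ∀ w, Res E own p f u w → w ∈ (A : Set V) := by
    intro u hu w hw
    apply hpot.closed ht u hu w
    refine ⟨hw.1, fun hp => ?_⟩
    rw [hw.2 hp]; exact hf u hu
  constructor
  · intro h
    obtain ⟨l', rfl⟩ := h.exists_cons
    have hst := path_stays hcl h.chain hy
    refine ⟨h.chain.imp_of_mem_imp ?_, h.nodup, h.head, h.last⟩
    intro a b ha _ hab
    exact ⟨hab.1, fun hp => by rw [hab.2 hp]; exact hf a (hst a ha)⟩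
  · intro h
    obtain ⟨l', rfl⟩ := h.exists_cons
    have hst := path_stays (hpot.closed ht) h.chain hy
    refine ⟨h.chain.imp_of_mem_imp ?_, h.nodup, h.head, h.last⟩
    intro a b ha _ hab
    exact ⟨hab.1, fun hp => by rw [hab.2 hp]; exact (hf a (hst a ha)).symm⟩

theorem Pot.path_mem (hpot : Pot E own p t c A μ σ τ) (ht : ∀ w, ¬ E t w)
    {y : V} (hy : y ∈ A) {l : List V} (h : IsPath (Res E own p σ) y t l) : ∀ v ∈ l, v ∈ A := by
  obtain ⟨l', rfl⟩ := h.exists_cons
  exact path_stays (hpot.closed ht) h.chain hy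

/-- outside `A` the player `!p` playing `g` never enters `A` -/
theorem Pot.out_closed (hpot : Pot E own p t c A μ σ τ) {g : V → V} {B : Set V}
    (hBA : ∀ v ∈ B, v ∉ A)
    (hB : ∀ v, v ∉ A → v ∈ B)
    (hg : ∀ v, v ∉ A → own v ≠ p → (∃ w, E v w) → g v ∉ A) :
    ∀ u ∈ B, ∀ w, Res E own (!p) g u w → w ∈ B := by
  intro u hu w hw
  apply hB
  by_cases hp : own u = p
  · exact hpot.out_p u (hBA u hu) hp w hw.1
  · have : own u = !p := by cases hh : own u <;> cases p <;> simp_all
    rw [hw.2 this]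
    exact hg u (hBA u hu) hp ⟨w, hw.1⟩

end pot

theorem base_case [Fintype V] {E : V → V → Prop} {own : V → Bool} {r : Bool → V → V → ℝ}
    {p : Bool} {t s : V} {A : Finset V} {μ : V → ℝ} {σ τ : V → V}
    (hpos : ∀ b u w, E u w → 0 < r b u w) (ht : ∀ w, ¬ E t w)
    (hpot : Pot E own p t (r p) A μ σ τ) (hs : s ∈ A) :
    ∃ P, Good E own r p s t P ∧ Good E own r (!p) s t P := by
  classical
  obtain ⟨f₀, hf₀⟩ := exists_strat E own p
  obtain ⟨P, hP, hmin⟩ := exists_shortest (r (!p)) (hpot.reach (hpos p) hs)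
  have hPA := hpot.path_mem ht hs hP
  refine ⟨P, ?_, ?_⟩
  · set f : V → V := fun v => if v ∈ A then σ v else f₀ v with hfdef
    have hf : ∀ v ∈ A, f v = σ v := fun v hv => by simp [hfdef, hv]
    refine ⟨f, ?_, ?_, ?_⟩
    · intro v hv hex
      by_cases hvA : v ∈ A
      · rw [hf v hvA]
        have hvt : v ≠ t := by rintro rfl; obtain ⟨w, hw⟩ := hex; exact ht _ hw
        exact (hpot.σA v hvA hvt hv).1
      · simp only [hfdef, if_neg hvA]; exact hf₀ v hv hex
    · exact (res_congr_path hpot ht hf hs).2 hP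
    · intro Q hQ
      exact hmin Q ((res_congr_path hpot ht hf hs).1 hQ)
  · have hPE : P.IsChain E := hP.chain.imp (fun _ _ h => h.1)
    obtain ⟨g, hg1, hg2, hg3⟩ := exists_override τ hPE hP.nodup
    refine ⟨g, ?_, ?_, ?_⟩
    · intro v hv hex
      have hvp : own v ≠ p := by rw [hv]; cases p <;> simp
      rcases hg2 v with h | h
      · rw [h]
        by_cases hvA : v ∈ A
        · have hvt : v ≠ t := by rintro rfl; obtain ⟨w, hw⟩ := hex; exact ht _ hw
          exact (hpot.τA v hvA hvt hvp).1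
        · exact (hpot.out_q v hvA hvp hex).1
      · exact h
    · refine ⟨(chain_and hPE hg1).imp ?_, hP.nodup, hP.head, hP.last⟩
      intro a b hab
      exact ⟨hab.1, fun _ => hab.2.symm⟩
    · intro Q hQ
      rw [Bool.not_not]
      refine pot_ineq hpot ht hP hPA hg1 (fun v _ hv _ => hg3 v hv) hQ ?_
      intro v hv
      by_contra hvA
      have hcl := hpot.out_closed (g := g) (B := {v | v ∉ A}) (fun v hv => hv) (fun v hv => hv)
        (fun v hvA hvp hex => by
          rw [hg3 v (fun hvP => hvA (hPA v hvP))]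
          exact (hpot.out_q v hvA hvp hex).2)
      have := closed_last hcl hQ.chain hQ.last hv hvA
      exact this hpot.tA

end Pool.Agent.Helper187_BSP
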