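import Pool.Agent.Helper187_BSP.Basic

/-! Existence of the value potential of the zero-sum shortest path game. -/

namespace Pool.Agent.Helper187_BSP

open Relation

universe u

variable {V : Type u}

structure PrePot (E : V → V → Prop) (own : V → Bool) (p : Bool) (t : V) (c : V → V → ℝ)
    (A : Finset V) (μ : V → ℝ) (m : ℝ) : Prop where
  tA : t ∈ A
  μt : μ t = 0
  le_m : ∀ v ∈ A, μ v ≤ m
  att_p : ∀ v ∈ A, v ≠ t → own v = p → ∃ w ∈ A, E v w ∧ c v w + μ w = μ v
  min_p : ∀ v ∈ A, own v = p → ∀ w ∈ A, E v w → μ v ≤ c v w + μ w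
  max_q : ∀ v ∈ A, own v ≠ p → ∀ w, E v w → w ∈ A ∧ c v w + μ w ≤ μ v
  att_q : ∀ v ∈ A, v ≠ t → own v ≠ p → ∃ w ∈ A, E v w ∧ c v w + μ w = μ v
  inv_p : ∀ v, v ∉ A → own v = p → ∀ w ∈ A, E v w → m ≤ c v w + μ w
  inv_q : ∀ v, v ∉ A → own v ≠ p → (∃ w, E v w) → (∀ w, E v w → w ∈ A) →
    ∃ w ∈ A, E v w ∧ m ≤ c v w + μ w

/-- `v` can be added to `A`. -/
def Cand (E : V → V → Prop) (own : V → Bool) (p : Bool) (A : Finset V) (v : V) : Prop :=
  v ∉ A ∧ (∃ w ∈ A, E v w) ∧ (own v ≠ p → ∀ w, E v w → w ∈ A)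

def IsVal (E : V → V → Prop) (own : V → Bool) (p : Bool) (c : V → V → ℝ)
    (A : Finset V) (μ : V → ℝ) (v : V) (x : ℝ) : Prop :=
  (∃ w ∈ A, E v w ∧ c v w + μ w = x) ∧
  (own v = p → ∀ w ∈ A, E v w → x ≤ c v w + μ w) ∧
  (own v ≠ p → ∀ w ∈ A, E v w → c v w + μ w ≤ x)

theorem exists_val {E : V → V → Prop} {own : V → Bool} {p : Bool} {c : V → V → ℝ}
    {A : Finset V} {μ : V → ℝ} {v : V} (h : Cand E own p A v) :
    ∃ x, IsVal E own p c A μ v x := by
  classical
  obtain ⟨_, ⟨w, hwA, hw⟩, _⟩ := h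
  have hne : (A.filter (fun w => E v w)).Nonempty := ⟨w, by simp [hwA, hw]⟩
  by_cases hp : own v = p
  · obtain ⟨w0, hw0, hmin⟩ := Finset.exists_min_image _ (fun w => c v w + μ w) hne
    rw [Finset.mem_filter] at hw0
    refine ⟨c v w0 + μ w0, ⟨w0, hw0.1, hw0.2, rfl⟩, ?_, fun h => absurd hp h⟩
    intro _ w hwA hw
    exact hmin w (by simp [hwA, hw])
  · obtain ⟨w0, hw0, hmax⟩ := Finset.exists_max_image _ (fun w => c v w + μ w) hne
    rw [Finset.mem_filter] at hw0
    refine ⟨c v w0 + μ w0, ⟨w0, hw0.1, hw0.2, rfl⟩, fun h => absurd h hp, ?_⟩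
    intro _ w hwA hw
    exact hmax w (by simp [hwA, hw])

theorem PrePot.step [Fintype V] {E : V → V → Prop} {own : V → Bool} {p : Bool} {t : V}
    {c : V → V → ℝ} (hc : ∀ u w, E u w → 0 < c u w)
    {A : Finset V} {μ : V → ℝ} {m : ℝ} (h : PrePot E own p t c A μ m)
    {v₁ : V} (hv₁ : Cand E own p A v₁) :
    ∃ (B : Finset V) (μ' : V → ℝ) (m' : ℝ), PrePot E own p t c B μ' m' ∧ A.card < B.card := by
  classical
  have hX : ∀ v, ∃ x, Cand E own p A v → IsVal E own p c A μ v x := by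
    intro v
    by_cases hv : Cand E own p A v
    · obtain ⟨x, hx⟩ := exists_val (c := c) (μ := μ) hv
      exact ⟨x, fun _ => hx⟩
    · exact ⟨0, fun h => absurd h hv⟩
  choose X hX using hX
  obtain ⟨v, hv, hmin⟩ := Finset.exists_min_image
    (Finset.univ.filter (fun v => Cand E own p A v)) X ⟨v₁, by simp [hv₁]⟩
  have hvC : Cand E own p A v := by simpa using hv
  have hmin' : ∀ u, Cand E own p A u → X v ≤ X u := fun u hu => hmin u (by simp [hu])
  clear hmin hv
  obtain ⟨hvA, hvE, hvq⟩ := hvC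
  have hval := hX v ⟨hvA, hvE, hvq⟩
  obtain ⟨⟨w₀, hw₀A, hw₀E, hw₀⟩, hvmin, hvmax⟩ := hval
  -- m ≤ X v
  have hmX : m ≤ X v := by
    by_cases hp : own v = p
    · rw [← hw₀]; exact h.inv_p v hvA hp w₀ hw₀A hw₀E
    · obtain ⟨w, hwA, hwE, hw⟩ := h.inv_q v hvA hp ⟨w₀, hw₀E⟩ (hvq hp)
      exact hw.trans (hvmax hp w hwA hwE)
  have hvt : v ≠ t := fun e => hvA (e ▸ h.tA)
  have hupd : ∀ u ∈ A, Function.update μ v (X v) u = μ u := by
    intro u hu
    rw [Function.update_of_ne]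
    rintro rfl; exact hvA hu
  refine ⟨insert v A, Function.update μ v (X v), X v, ?_, ?_⟩
  · refine ⟨?_, ?_, ?_, ?_, ?_, ?_, ?_, ?_, ?_⟩
    · exact Finset.mem_insert_of_mem h.tA
    · rw [hupd t h.tA, h.μt]
    · intro u hu
      rcases Finset.mem_insert.1 hu with rfl | hu
      · simp
      · rw [hupd u hu]; exact (h.le_m u hu).trans hmX
    · intro u hu hut hup
      rcases Finset.mem_insert.1 hu with rfl | hu
      · refine ⟨w₀, Finset.mem_insert_of_mem hw₀A, hw₀E, ?_⟩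
        rw [hupd w₀ hw₀A, hw₀]; simp
      · obtain ⟨w, hwA, hwE, hw⟩ := h.att_p u hu hut hup
        exact ⟨w, Finset.mem_insert_of_mem hwA, hwE, by rw [hupd w hwA, hupd u hu, hw]⟩
    · intro u hu hup w hw hE
      rcases Finset.mem_insert.1 hu with rfl | hu'
      · rcases Finset.mem_insert.1 hw with rfl | hw'
        · have := hc _ _ hE; linarith
        · rw [hupd w hw']
          simp only [Function.update_self]
          exact hvmin hup w hw' hE
      · rcases Finset.mem_insert.1 hw with rfl | hw'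
        · rw [hupd u hu']; simp only [Function.update_self]
          have := hc _ _ hE
          have := h.le_m u hu'
          linarith
        · rw [hupd w hw', hupd u hu']; exact h.min_p u hu' hup w hw' hE
    · intro u hu huq w hE
      rcases Finset.mem_insert.1 hu with rfl | hu
      · have hwA := hvq huq w hE
        refine ⟨Finset.mem_insert_of_mem hwA, ?_⟩
        rw [hupd w hwA]; simp only [Function.update_self]
        exact hvmax huq w hwA hE
      · obtain ⟨hwA, hle⟩ := h.max_q u hu huq w hE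
        refine ⟨Finset.mem_insert_of_mem hwA, ?_⟩
        rw [hupd w hwA, hupd u hu]; exact hle
    · intro u hu hut hup
      rcases Finset.mem_insert.1 hu with rfl | hu
      · refine ⟨w₀, Finset.mem_insert_of_mem hw₀A, hw₀E, ?_⟩
        rw [hupd w₀ hw₀A, hw₀]; simp
      · obtain ⟨w, hwA, hwE, hw⟩ := h.att_q u hu hut hup
        exact ⟨w, Finset.mem_insert_of_mem hwA, hwE, by rw [hupd w hwA, hupd u hu, hw]⟩
    · intro u hu hup w hw hE
      have huA : u ∉ A := fun h' => hu (Finset.mem_insert_of_mem h')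
      rcases Finset.mem_insert.1 hw with rfl | hw
      · simp only [Function.update_self]
        have := hc _ _ hE; linarith
      · rw [hupd w hw]
        have hC : Cand E own p A u := ⟨huA, ⟨w, hw, hE⟩, fun h' => absurd hup h'⟩
        exact (hmin' u hC).trans ((hX u hC).2.1 hup w hw hE)
    · intro u hu huq hex hall
      have huA : u ∉ A := fun h' => hu (Finset.mem_insert_of_mem h')
      by_cases hEv : E u v
      · refine ⟨v, Finset.mem_insert_self _ _, hEv, ?_⟩
        simp only [Function.update_self]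
        have := hc _ _ hEv; linarith
      · have hall' : ∀ w, E u w → w ∈ A := by
          intro w hw
          rcases Finset.mem_insert.1 (hall w hw) with rfl | h'
          · exact absurd hw hEv
          · exact h'
        obtain ⟨w, hw⟩ := hex
        have hC : Cand E own p A u := ⟨huA, ⟨w, hall' w hw, hw⟩, fun _ => hall'⟩
        obtain ⟨⟨w', hw'A, hw'E, hw'⟩, -, -⟩ := hX u hC
        refine ⟨w', Finset.mem_insert_of_mem hw'A, hw'E, ?_⟩
        rw [hupd w' hw'A, hw']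
        exact hmin' u hC
  · rw [Finset.card_insert_of_notMem hvA]; omega

/-- The value potential of the zero-sum game in which the owner of the `own = p` vertices
minimises `c` and the other player maximises, on the set `A` of vertices from which the
minimiser can force reaching `t`; `σ`, `τ` are optimal choices. -/
structure Pot (E : V → V → Prop) (own : V → Bool) (p : Bool) (t : V) (c : V → V → ℝ)
    (A : Finset V) (μ : V → ℝ) (σ τ : V → V) : Prop where
  tA : t ∈ A
  μt : μ t = 0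
  σA : ∀ v ∈ A, v ≠ t → own v = p → E v (σ v) ∧ σ v ∈ A ∧ c v (σ v) + μ (σ v) = μ v
  min_p : ∀ v ∈ A, own v = p → ∀ w ∈ A, E v w → μ v ≤ c v w + μ w
  max_q : ∀ v ∈ A, own v ≠ p → ∀ w, E v w → w ∈ A ∧ c v w + μ w ≤ μ v
  τA : ∀ v ∈ A, v ≠ t → own v ≠ p → E v (τ v) ∧ τ v ∈ A ∧ c v (τ v) + μ (τ v) = μ v
  out_p : ∀ v, v ∉ A → own v = p → ∀ w, E v w → w ∉ A
  out_q : ∀ v, v ∉ A → own v ≠ p → (∃ w, E v w) → E v (τ v) ∧ τ v ∉ A

theorem exists_pot [Fintype V] (E : V → V → Prop) (own : V → Bool) (p : Bool) (t : V)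
    (c : V → V → ℝ) (hc : ∀ u w, E u w → 0 < c u w) (ht : ∀ w, ¬ E t w) :
    ∃ A μ σ τ, Pot E own p t c A μ σ τ := by
  classical
  -- initial
  have h0 : ∃ μ m, PrePot E own p t c {t} μ m := by
    refine ⟨fun _ => 0, 0, by simp, rfl, by simp, ?_, ?_, ?_, ?_, ?_, ?_⟩
    · intro v hv hvt; simp at hv; exact absurd hv hvt
    · intro v hv _ w _ hE; simp at hv; subst hv; exact absurd hE (ht w)
    · intro v hv _ w hE; simp at hv; subst hv; exact absurd hE (ht w)
    · intro v hv hvt; simp at hv; exact absurd hv hvt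
    · intro v _ _ w _ hE; have := hc _ _ hE; linarith
    · rintro v _ _ ⟨w, hw⟩ hall
      refine ⟨w, hall w hw, hw, ?_⟩
      have := hc _ _ hw; linarith
  obtain ⟨A, hA, hmax⟩ := Finset.exists_max_image
    (Finset.univ.filter (fun A : Finset V => ∃ μ m, PrePot E own p t c A μ m)) Finset.card
    ⟨{t}, by simpa using h0⟩
  simp only [Finset.mem_filter, Finset.mem_univ, true_and] at hA hmax
  obtain ⟨μ, m, h⟩ := hA
  have hno : ∀ v, ¬ Cand E own p A v := by
    intro v hv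
    obtain ⟨B, μ', m', hB, hlt⟩ := h.step hc hv
    have := hmax B ⟨μ', m', hB⟩
    omega
  -- choose σ
  have hσ : ∀ v, ∃ w, (v ∈ A → v ≠ t → own v = p → E v w ∧ w ∈ A ∧ c v w + μ w = μ v) := by
    intro v
    by_cases hv : v ∈ A ∧ v ≠ t ∧ own v = p
    · obtain ⟨w, h1, h2, h3⟩ := h.att_p v hv.1 hv.2.1 hv.2.2
      exact ⟨w, fun _ _ _ => ⟨h2, h1, h3⟩⟩
    · exact ⟨v, fun a b c => absurd ⟨a, b, c⟩ hv⟩
  have hτ : ∀ v, ∃ w, (v ∈ A → v ≠ t → own v ≠ p → E v w ∧ w ∈ A ∧ c v w + μ w = μ v) ∧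
      (v ∉ A → own v ≠ p → (∃ w, E v w) → E v w ∧ w ∉ A) := by
    intro v
    by_cases hvA : v ∈ A
    · by_cases hv : v ≠ t ∧ own v ≠ p
      · obtain ⟨w, h1, h2, h3⟩ := h.att_q v hvA hv.1 hv.2
        exact ⟨w, fun _ _ _ => ⟨h2, h1, h3⟩, fun h' => absurd hvA h'⟩
      · exact ⟨v, fun _ b c => absurd ⟨b, c⟩ hv, fun h' => absurd hvA h'⟩
    · by_cases hv : own v ≠ p ∧ ∃ w, E v w
      · have : ∃ w, E v w ∧ w ∉ A := by
          by_contra hcon
          push Not at hcon
          obtain ⟨w, hw⟩ := hv.2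
          exact hno v ⟨hvA, ⟨w, hcon w hw, hw⟩, fun _ => hcon⟩
        obtain ⟨w, h1, h2⟩ := this
        exact ⟨w, fun h' => absurd h' hvA, fun _ _ _ => ⟨h1, h2⟩⟩
      · exact ⟨v, fun h' => absurd h' hvA, fun _ b c => absurd ⟨b, c⟩ hv⟩
  choose σ hσ using hσ
  choose τ hτ using hτ
  refine ⟨A, μ, σ, τ, h.tA, h.μt, hσ, h.min_p, h.max_q, fun v => (hτ v).1, ?_,
    fun v => (hτ v).2⟩
  intro v hvA hvp w hE hwA
  exact hno v ⟨hvA, ⟨w, hwA, hE⟩, fun h' => absurd hvp h'⟩

end Pool.Agent.Helper187_BSP
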